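import Pool.Agent.TH607.D4.Word

set_option autoImplicit false

/-!
# Triangulated closed 4-manifolds, and the classical facts of 4-manifold topology which are used
-/

namespace Pool.Agent.TH607.D4

/-! ### Triangulations (concrete) -/

/-- The geometric realization of the finite simplicial complex whose simplices are the nonempty
subsets of the members of `K` (lists of vertices, natural numbers). -/
def Real (K : List (List ℕ)) : Set (ℕ → ℝ) :=
  {x | ∃ s ∈ K, (∀ i, 0 ≤ x i) ∧ (∀ i, i ∉ s → x i = 0) ∧ ∑ i ∈ s.toFinset, x i = 1}

/-- The realizations are homeomorphic. -/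
def Homeo (K L : List (List ℕ)) : Prop := Nonempty (Real K ≃ₜ Real L)

/-- The realizations are PL homeomorphic: there is a homeomorphism whose graph is a compact
polyhedron, that is a finite union of convex hulls of finite sets. For closed combinatorial
4-manifolds this means (Whitehead, Cerf) that the smooth manifolds are diffeomorphic. -/
def PLHomeo (K L : List (List ℕ)) : Prop :=
  ∃ (f : Real K ≃ₜ Real L) (S : Finset (Finset ((ℕ → ℝ) × (ℕ → ℝ)))),
    {p | ∃ x : Real K, p = (x.1, (f x).1)} =
      ⋃ s ∈ S, convexHull ℝ (s : Set ((ℕ → ℝ) × (ℕ → ℝ)))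

/-- The link of the vertex `v`. -/
def link (K : List (List ℕ)) (v : ℕ) : List (List ℕ) :=
  (K.filter (fun s => v ∈ s)).map (fun s => s.filter (fun i => i ≠ v))

/-- The boundary of the 4-simplex, a triangulated 3-sphere. -/
def sphere3 : List (List ℕ) :=
  [[1, 2, 3, 4], [0, 2, 3, 4], [0, 1, 3, 4], [0, 1, 2, 4], [0, 1, 2, 3]]

/-- Closed connected combinatorial 4-manifolds: the link of every vertex is a PL 3-sphere. -/
structure Closed4 (K : List (List ℕ)) : Prop where
  connected : IsConnected (Real K)
  link : ∀ v, (∃ s ∈ K, v ∈ s) → PLHomeo (link K v) sphere3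

/-- `A` halts on every pair of homeomorphic closed connected triangulated 4-manifolds and decides
whether they are diffeomorphic (nothing is asked for other pairs). -/
def DecidesDiffeo (A : List (List ℕ) × List (List ℕ) →. Bool) : Prop :=
  ∀ K L, Closed4 K → Closed4 L → Homeo K L → ∃ b ∈ A (K, L), (b = true ↔ PLHomeo K L)

/-! ### Classical facts -/

/-- Bordism of the normal 1-types (Kreck) of a closed connected oriented smooth 4-manifold `X` with
spin universal cover, and of `R # X`. Here `S`, `K`, `R` stand for `S² × S²`, the `K3` surface and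
the boundary `R` of the 5-dimensional thickening of `ℝP²` which has `w₁ ≠ 0` and `w₂ = 0` (an
`S²`-bundle over `ℝP²`), `O` and `N` for the closed connected oriented resp. nonorientable smooth
4-manifolds. -/
structure Bordism {O N : Type} [CommMonoid O] [MulAction O N] (S K : O) (R : N) (X : O) where
  /-- The bordism group `Ω₄(ξ)` of the normal 1-type `ξ` of `X`: closed 4-manifolds with a map to
  `Bπ`, `π = π₁(X)`, and a spin structure twisted by the class in `H²(π; ℤ/2)` which pulls back to
  `w₂(X)`. -/
  A : Type
  [instA : AddCommGroup A]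
  /-- The bordism group `Ω₄(ξ')` of the normal 1-type `ξ'` of `R # X`. -/
  B : Type
  [instB : AddCommGroup B]
  /-- The signature. -/
  sign : A →+ ℤ
  /-- The class of `K3` (with constant map). -/
  k3 : A
  /-- The signature of `K3` is `-16`. -/
  sign_k3 : sign k3 = -16
  /-- The class of `X` (with some normal 1-smoothing). -/
  fund : A
  /-- The map from `Ω₄^{Pin⁺} = ℤ/16` (the bordism group of the normal 1-type of `R`) induced by
  `ℤ/2 → π₁(R # X) = ℤ/2 * π`. -/
  i : ZMod 16 →+ B
  /-- The map induced by `π → ℤ/2 * π`. -/
  j : A →+ B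
  /-- Mayer-Vietoris sequence of the wedge `B(ℤ/2 * π) = Bℤ/2 ∨ Bπ`: at the point, `Ω₄^{Spin} = ℤ`
  is generated by `K3`, which is `8` in `Ω₄^{Pin⁺} = ℤ/16` (Kirby-Taylor). -/
  exact : ∀ a b, i a + j b = 0 → ∃ n : ℤ, a = n • 8 ∧ b = -(n • k3)
  /-- The action of the automorphisms of the normal 1-type `ξ'` on `Ω₄(ξ')`. -/
  Aut : Set (B →+ B)
  /-- The bordism classes of all normal 1-smoothings of `M` in `ξ'` (none if the normal 1-type of
  `M` is not `ξ'`). -/
  cls : N → Set B
  /-- Two normal 1-smoothings differ by an automorphism of the normal 1-type (Kreck). -/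
  cls_aut : ∀ M : N, ∀ x ∈ cls M, ∀ y ∈ cls M, ∃ α ∈ Aut, α x = y
  /-- A connected sum is bordant to the disjoint union; `R` and `S² × S²` bound. So this is the
  class of `R # X # a K3 # k (S² × S²)`. -/
  cls_sum : ∀ a k : ℕ, j (fund + a • k3) ∈ cls ((X * K ^ a * S ^ k) • R)

attribute [instance] Bordism.instA Bordism.instB

/-- The closed connected 4-manifolds, with the classical facts that are used. -/
structure FourManifolds where
  /-- Closed connected oriented smooth 4-manifolds up to orientation preserving diffeomorphism,
  under connected sum. -/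
  O : Type
  [instO : CommMonoid O]
  /-- Reversal of the orientation. -/
  bar : O → O
  /-- Closed connected nonorientable smooth 4-manifolds up to diffeomorphism; `X • M = X # M`. -/
  N : Type
  [instN : MulAction O N]
  /-- In a nonorientable manifold the orientation of a summand does not matter. -/
  bar_smul : ∀ (X : O) (M : N), bar X • M = X • M
  /-- Closed connected oriented topological 4-manifolds up to orientation preserving
  homeomorphism, under connected sum. -/
  OT : Type
  [instOT : CommMonoid OT]
  /-- Reversal of the orientation. -/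
  barT : OT → OT
  /-- Closed connected nonorientable topological 4-manifolds up to homeomorphism. -/
  NT : Type
  [instNT : MulAction OT NT]
  barT_smul : ∀ (X : OT) (M : NT), barT X • M = X • M
  /-- The underlying topological manifold. -/
  top : O →* OT
  /-- The underlying topological manifold. -/
  topN : N → NT
  topN_smul : ∀ (X : O) (M : N), topN (X • M) = top X • topN M
  /-- `S² × S²`. -/
  S : O
  /-- `ℂP²`. -/
  C : O
  /-- The `K3` surface. -/
  K : O
  /-- The boundary of the 5-dimensional thickening of `ℝP²` with `w₁ ≠ 0`, `w₂ = 0`. -/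
  R : N
  /-- The closed simply connected topological 4-manifold with intersection form `-E₈`
  (Freedman). -/
  E : OT
  /-- `K3` is homeomorphic to `E # E # 3 (S² × S²)` (Freedman). -/
  k3_top : top K = E * E * top S ^ 3
  /-- `E # -E` is homeomorphic to `8 (S² × S²)` (Freedman). -/
  e_bar : E * barT E = top S ^ 8
  /-- `K3 # ℂP²` is diffeomorphic to `4 ℂP² # 19 (-ℂP²)` (Mandelbaum-Moishezon). -/
  k3_c : K * C = C ^ 4 * bar C ^ 19
  /-- The fundamental group of the oriented frame bundle of `X`. -/
  Fr : O → Type
  [instFr : ∀ X, Group (Fr X)]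
  /-- The image of the generator of `π₁(SO(4)) = ℤ/2` in `Fr X`; it is trivial if and only if the
  universal cover of `X` is not spin. -/
  ζ : ∀ X, Fr X
  /-- If the universal cover of `X` is not spin then `X # (S² × S²) = X # ℂP² # (-ℂP²)` (Wall). -/
  wall : ∀ X, ζ X = 1 → X * S = X * (C * bar C)
  /-- The boundary of the 5-dimensional oriented handlebody with one 0-handle, a 1-handle for each
  generator and a 2-handle for each relator `r`, framed so that `w₂` is given by the labels. -/
  Z : Pres → O
  /-- The fundamental group of its frame bundle. -/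
  frame_Z : ∀ p, ∃ e : Fr (Z p) ≃* FrameGroup p, e (ζ (Z p)) = zz p
  /-- The bordism theory for `X` with spin universal cover. -/
  bord : ∀ X, ζ X ≠ 1 → Bordism S K R X
  /-- `Z p` bounds the handlebody, to which its normal 1-smoothings extend. -/
  bord_Z : ∀ p (h : ζ (Z p) ≠ 1), (bord (Z p) h).fund = 0
  /-- `K` is a (Whitehead) triangulation of `M`. -/
  tri : List (List ℕ) → N → Prop
  tri_closed : ∀ L M, tri L M → Closed4 L
  /-- Triangulated manifolds are diffeomorphic if and only if they are PL homeomorphic
  (Whitehead, Cerf). -/
  tri_diffeo : ∀ L M L' M', tri L M → tri L' M' → (PLHomeo L L' ↔ M = M')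
  tri_homeo : ∀ L M L' M', tri L M → tri L' M' → (Homeo L L' ↔ topN M = topN M')
  /-- Markov: from `p` one can compute a triangulation of `R # Z p # Y`, for any fixed `Y`. -/
  tri_comp : ∀ Y : O, ∃ f : Pres → List (List ℕ), Computable f ∧ ∀ p, tri (f p) ((Z p * Y) • R)

attribute [instance] FourManifolds.instO FourManifolds.instN FourManifolds.instOT
  FourManifolds.instNT FourManifolds.instFr

namespace FourManifolds

variable (T : FourManifolds)

/-- Stably diffeomorphic: diffeomorphic after connected sums with copies of `S² × S²`. -/
def Stable (M M' : T.N) : Prop := ∃ k l : ℕ, T.S ^ k • M = T.S ^ l • M'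

end FourManifolds

end Pool.Agent.TH607.D4
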