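import Pool.Agent.TH607.D4.Defs
import Pool.Agent.Helper270.WPB

set_option autoImplicit false

/-!
# The diffeomorphism problem for homeomorphic closed 4-manifolds
-/

namespace Pool.Agent.TH607.D4

/-! ### Computability -/

theorem primrec_invRev : Primrec (fun w : List (ℕ × Bool) => FreeGroup.invRev w) := by
  unfold FreeGroup.invRev
  refine Primrec.list_reverse.comp (Primrec.list_map Primrec.id ?_)
  exact (Primrec.pair (Primrec.fst.comp Primrec.snd)
    (Primrec.not.comp (Primrec.snd.comp Primrec.snd))).to₂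

theorem primrec_comm (b : List (ℕ × Bool)) :
    Primrec (fun w : List (ℕ × Bool) => comm w b) := by
  unfold comm
  exact Primrec.list_append.comp Primrec.id (Primrec.list_append.comp (Primrec.const _)
    (Primrec.list_append.comp primrec_invRev (Primrec.const _)))

theorem primrec_nat (m : ℕ) : Primrec (fun w : List (Fin m × Bool) => nat w) := by
  unfold nat
  refine Primrec.list_map Primrec.id ?_
  exact (Primrec.pair (Primrec.fin_val.comp (Primrec.fst.comp Primrec.snd))
    (Primrec.snd.comp Primrec.snd)).to₂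

theorem primrec_pres (m : ℕ) (R : List (List (ℕ × Bool))) :
    Primrec (fun w : List (ℕ × Bool) => pres m R w) := by
  unfold pres
  refine Primrec.pair (Primrec.const _) (Primrec.list_append.comp (Primrec.const _) ?_)
  refine Primrec.list_cons.comp (Primrec.pair ?_ (Primrec.const _)) (Primrec.const _)
  exact (primrec_comm _).comp (primrec_comm _)

/-- A partial algorithm that answers correctly on all inputs decides the predicate. -/
theorem computablePred_of {p : ℕ → Prop} {g : ℕ →. Bool} (hg : Partrec g)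
    (h1 : ∀ n, p n → true ∈ g n) (h2 : ∀ n, ¬ p n → false ∈ g n) : ComputablePred p := by
  classical
  refine ⟨fun n => Classical.dec (p n), ?_⟩
  refine Partrec.of_eq hg ?_
  intro n
  change g n = Part.some _
  rw [Part.eq_some_iff]
  change @decide (p n) (Classical.dec (p n)) ∈ g n
  by_cases hp : p n
  · have e : @decide (p n) (Classical.dec (p n)) = true := decide_eq_true hp
    rw [e]
    exact h1 n hp
  · have e : @decide (p n) (Classical.dec (p n)) = false := decide_eq_false hp
    rw [e]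
    exact h2 n hp

namespace FourManifolds

variable (T : FourManifolds)

/-- `R # X # K3 # (S² × S²)`. -/
def M1 (X : T.O) : T.N := (X * (T.K * T.S)) • T.R

/-- `R # X # 12 (S² × S²)`. -/
def M2 (X : T.O) : T.N := (X * T.S ^ 12) • T.R

theorem bar_pow_smul (a : ℕ) (X : T.O) (M : T.N) :
    (X * T.bar T.C ^ a) • M = (X * T.C ^ a) • M := by
  induction a with
  | zero => simp
  | succ a ih =>
    have e1 : X * T.bar T.C ^ (a + 1) = T.bar T.C * (X * T.bar T.C ^ a) := by
      rw [pow_succ]; ac_rfl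
    have e2 : X * T.C ^ (a + 1) = T.C * (X * T.C ^ a) := by
      rw [pow_succ]; ac_rfl
    rw [e1, e2, mul_smul (T.bar T.C), T.bar_smul, ih, ← mul_smul]

theorem wall_pow {X : T.O} (h : T.ζ X = 1) (n : ℕ) :
    X * T.S ^ n = X * (T.C * T.bar T.C) ^ n := by
  induction n with
  | zero => simp
  | succ n ih =>
    have e : X * T.S ^ (n + 1) = (X * T.S) * T.S ^ n := by
      rw [pow_succ]; ac_rfl
    rw [e, T.wall X h]
    have e' : X * (T.C * T.bar T.C) * T.S ^ n = (X * T.S ^ n) * (T.C * T.bar T.C) := by ac_rfl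
    rw [e', ih, pow_succ, mul_assoc]

/-- If the universal cover of `X` is not spin, the two manifolds are diffeomorphic. -/
theorem diffeo {X : T.O} (h : T.ζ X = 1) : T.M1 X = T.M2 X := by
  unfold M1 M2
  have e1 : X * (T.K * T.S) = (X * T.C ^ 4) * T.bar T.C ^ 20 := by
    have a1 : X * (T.K * T.S) = T.K * (X * T.S) := by ac_rfl
    rw [a1, T.wall X h]
    have a2 : T.K * (X * (T.C * T.bar T.C)) = X * (T.K * T.C) * T.bar T.C := by ac_rfl
    rw [a2, T.k3_c, pow_succ (T.bar T.C) 19]
    ac_rfl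
  have e2 : X * T.S ^ 12 = (X * T.C ^ 12) * T.bar T.C ^ 12 := by
    rw [T.wall_pow h, mul_pow, mul_assoc]
  rw [e1, e2, T.bar_pow_smul, T.bar_pow_smul, mul_assoc, mul_assoc, ← pow_add, ← pow_add]

/-- The two manifolds are always homeomorphic. -/
theorem homeo (X : T.O) : T.topN (T.M1 X) = T.topN (T.M2 X) := by
  unfold M1 M2
  rw [T.topN_smul, T.topN_smul, map_mul, map_mul, map_mul, map_pow, T.k3_top]
  have e1 : T.top X * (T.E * T.E * T.top T.S ^ 3 * T.top T.S) =
      T.E * (T.E * (T.top X * T.top T.S ^ 4)) := by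
    rw [pow_succ (T.top T.S) 3]; ac_rfl
  rw [e1, mul_smul, ← T.barT_smul T.E, ← mul_smul]
  have e2 : T.barT T.E * (T.E * (T.top X * T.top T.S ^ 4)) =
      T.top X * ((T.E * T.barT T.E) * T.top T.S ^ 4) := by ac_rfl
  rw [e2, T.e_bar, ← pow_add]

/-- If the universal cover of `X` is spin and `X` bounds, the two manifolds are not stably
diffeomorphic. -/
theorem not_stable {X : T.O} (h : T.ζ X ≠ 1) (h0 : (T.bord X h).fund = 0) :
    ¬ T.Stable (T.M1 X) (T.M2 X) := by
  rintro ⟨k, l, hkl⟩
  set b := T.bord X h with hb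
  have c1 := b.cls_sum 1 (k + 1)
  have c2 := b.cls_sum 0 (l + 12)
  have e1 : (X * T.K ^ 1 * T.S ^ (k + 1)) • T.R = T.S ^ k • T.M1 X := by
    unfold M1
    rw [← mul_smul, pow_one, pow_succ]
    congr 1
    ac_rfl
  have e2 : (X * T.K ^ 0 * T.S ^ (l + 12)) • T.R = T.S ^ l • T.M2 X := by
    unfold M2
    rw [← mul_smul, pow_zero, mul_one, pow_add]
    congr 1
    ac_rfl
  rw [e1, h0, zero_add, one_smul] at c1
  rw [e2, ← hkl, h0, zero_add, zero_smul] at c2
  obtain ⟨α, hα, hα1⟩ := b.cls_aut _ _ c2 _ c1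
  rw [map_zero, map_zero] at hα1
  obtain ⟨n, hn, hn2⟩ := b.exact 0 b.k3 (by rw [map_zero, zero_add, ← hα1])
  have hs := congrArg b.sign hn2
  rw [map_neg, map_zsmul, b.sign_k3] at hs
  have hn' : n = -1 := by
    simp only [smul_eq_mul] at hs
    omega
  rw [hn'] at hn
  revert hn
  decide

/-- The dichotomy for `Z p`. -/
theorem zeta_iff (p : Pres) : T.ζ (T.Z p) = 1 ↔ zz p = 1 := by
  obtain ⟨e, he⟩ := T.frame_Z p
  rw [← he]
  constructor
  · intro h
    rw [h, map_one]
  · intro h
    exact (MulEquiv.map_eq_one_iff e).mp h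

/-- The reduction of a word problem. -/
theorem reduction (A : List (List ℕ) × List (List ℕ) →. Bool) (hA : Partrec A)
    (H : ∀ L M L' M', T.tri L M → T.tri L' M' → Homeo L L' →
      (M = M' → true ∈ A (L, L')) ∧ (¬ T.Stable M M' → false ∈ A (L, L'))) : False := by
  obtain ⟨m, R, W, hW, hund⟩ := Pool.Agent.Helper270.WP.word_problem
  obtain ⟨f1, hf1, ht1⟩ := T.tri_comp (T.K * T.S)
  obtain ⟨f2, hf2, ht2⟩ := T.tri_comp (T.S ^ 12)
  let P : ℕ → Pres := fun n => pres m (wordsOf R) (nat (W n))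
  have hP : Computable P :=
    (primrec_pres m (wordsOf R)).to_comp.comp ((primrec_nat m).to_comp.comp hW)
  have hg : Partrec (fun n => A (f1 (P n), f2 (P n))) :=
    hA.comp (Computable.pair (hf1.comp hP) (hf2.comp hP))
  have hH : ∀ n, Homeo (f1 (P n)) (f2 (P n)) := fun n =>
    (T.tri_homeo _ _ _ _ (ht1 (P n)) (ht2 (P n))).mpr (T.homeo _)
  refine hund (computablePred_of hg (fun n hn => ?_) (fun n hn => ?_))
  · refine (H _ _ _ _ (ht1 (P n)) (ht2 (P n)) (hH n)).1 (T.diffeo ?_)
    exact (T.zeta_iff _).mpr ((zz_iff R (W n)).mpr hn)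
  · refine (H _ _ _ _ (ht1 (P n)) (ht2 (P n)) (hH n)).2 (T.not_stable ?_ (T.bord_Z _ _))
    intro hz
    exact hn ((zz_iff R (W n)).mp ((T.zeta_iff _).mp hz))

include T in
theorem no_decision (A : List (List ℕ) × List (List ℕ) →. Bool) (hA : Partrec A) :
    ¬ DecidesDiffeo A := by
  intro H
  refine T.reduction A hA ?_
  intro L M L' M' h1 h2 h3
  obtain ⟨b, hb, hbi⟩ := H L L' (T.tri_closed _ _ h1) (T.tri_closed _ _ h2) h3
  rw [T.tri_diffeo _ _ _ _ h1 h2] at hbi
  constructor
  · intro h
    have := hbi.mpr h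
    rwa [this] at hb
  · intro h
    have : b = false := by
      rw [← Bool.not_eq_true]
      intro h'
      exact h ⟨0, 0, by rw [hbi.mp h']⟩
    rwa [this] at hb

end FourManifolds

end Pool.Agent.TH607.D4
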