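import Mathlib

set_option autoImplicit false

/-! Labelled presentations and the fundamental group of the frame bundle of the boundary of the
five-dimensional thickening; the word problem is encoded in the vanishing of `z`. -/

namespace Pool.Agent.TH607.D4

/-- Labelled presentations `(n, rs)`: `n` generators `x_0, ..., x_{n-1}` and finitely many relators
`(r, ε)`, `r` a word (a list of letters `(i, true) = x_i`, `(i, false) = x_i⁻¹`), `ε` a label. -/
abbrev Pres : Type := ℕ × List (List (ℕ × Bool) × Bool)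

/-- The relators of `FrameGroup p`: generators `z = none` and `x_i = some i`; `z` is a central
involution, `x_i = 1` for `i ≥ n`, and `r z^ε = 1` for every relator `(r, ε)` of `p`. -/
def rels (p : Pres) : Set (FreeGroup (Option ℕ)) :=
  {x | x = FreeGroup.of none ^ 2 ∨
    (∃ i : ℕ, x = FreeGroup.of none * FreeGroup.of (some i) * (FreeGroup.of none)⁻¹ *
      (FreeGroup.of (some i))⁻¹) ∨
    (∃ i : ℕ, p.1 ≤ i ∧ x = FreeGroup.of (some i)) ∨
    (∃ r ∈ p.2, x = FreeGroup.map some (FreeGroup.mk r.1) *
      (if r.2 = true then FreeGroup.of none else 1))}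

/-- `⟨x_0, ..., x_{n-1}, z | z² = 1, z central, r z^ε = 1 for all relators (r, ε)⟩`. -/
abbrev FrameGroup (p : Pres) : Type := PresentedGroup (rels p)

/-- The element `z`. -/
def zz (p : Pres) : FrameGroup p := PresentedGroup.of none

/-- The commutator `a b a⁻¹ b⁻¹` of two words. -/
def comm (a b : List (ℕ × Bool)) : List (ℕ × Bool) :=
  a ++ (b ++ (FreeGroup.invRev a ++ FreeGroup.invRev b))

/-- The labelled presentation `⟨x_0, ..., x_{m-1}, s, t | R, [[w, s], t]⟩`, all labels zero but
the last. -/
def pres (m : ℕ) (R : List (List (ℕ × Bool))) (w : List (ℕ × Bool)) : Pres :=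
  (m + 2, R.map (fun r => (r, false)) ++ [(comm (comm w [(m, true)]) [(m + 1, true)], true)])

/-- Letters indexed by natural numbers. -/
def nat {m : ℕ} (w : List (Fin m × Bool)) : List (ℕ × Bool) := w.map (fun x => (x.1.val, x.2))

/-- The commutator in a group. -/
def cm {H : Type*} [Group H] (a b : H) : H := a * b * a⁻¹ * b⁻¹

theorem map_cm {H H' : Type*} [Group H] [Group H'] (f : H →* H') (a b : H) :
    f (cm a b) = cm (f a) (f b) := by simp [cm]

theorem mk_comm (a b : List (ℕ × Bool)) :
    FreeGroup.mk (comm a b) = cm (FreeGroup.mk a) (FreeGroup.mk b) := by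
  simp only [comm, ← FreeGroup.mul_mk, ← FreeGroup.inv_mk, cm, mul_assoc]

theorem map_nat {m : ℕ} (w : List (Fin m × Bool)) :
    FreeGroup.map (some : ℕ → Option ℕ) (FreeGroup.mk (nat w)) =
      FreeGroup.map (fun i : Fin m => some i.val) (FreeGroup.mk w) := by
  simp [nat, FreeGroup.map.mk, List.map_map, Function.comp_def]

section Perm

/-- The set on which everything acts. -/
abbrev X (G : Type) : Type := G × (G → ZMod 2) × ZMod 2

/-- Left translation. -/
def pL (G : Type) [Group G] : G →* Equiv.Perm (X G) where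
  toFun g :=
    { toFun := fun x => (g * x.1, x.2)
      invFun := fun x => (g⁻¹ * x.1, x.2)
      left_inv := by rintro ⟨a, b⟩; simp
      right_inv := by rintro ⟨a, b⟩; simp }
  map_one' := by ext1 ⟨a, b⟩; simp
  map_mul' g h := by ext1 ⟨a, b⟩; simp [mul_assoc]

/-- The permutation of `s`. -/
def pS (G : Type) [DecidableEq G] : Equiv.Perm (X G) where
  toFun x := (x.1, x.2.1 + Pi.single x.1 1, x.2.2)
  invFun x := (x.1, x.2.1 - Pi.single x.1 1, x.2.2)
  left_inv := by rintro ⟨a, b, c⟩; simp
  right_inv := by rintro ⟨a, b, c⟩; simp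

/-- The permutation of `t`. -/
def pT (G : Type) : Equiv.Perm (X G) where
  toFun x := (x.1, x.2.1, x.2.2 + x.2.1 x.1)
  invFun x := (x.1, x.2.1, x.2.2 - x.2.1 x.1)
  left_inv := by rintro ⟨a, b, c⟩; simp
  right_inv := by rintro ⟨a, b, c⟩; simp

/-- The permutation of `z`. -/
def pZ (G : Type) : Equiv.Perm (X G) where
  toFun x := (x.1, x.2.1, x.2.2 + 1)
  invFun x := (x.1, x.2.1, x.2.2 - 1)
  left_inv := by rintro ⟨a, b, c⟩; simp
  right_inv := by rintro ⟨a, b, c⟩; simp

variable (G : Type) [Group G]

theorem pZ_ne : pZ G ≠ 1 := by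
  intro h
  have := congrArg (fun e : Equiv.Perm (X G) => (e (1, 0, 0)).2.2) h
  simp [pZ] at this

theorem pZ_sq : pZ G * pZ G = 1 := by
  ext1 ⟨a, b, c⟩
  have : (1 : ZMod 2) + 1 = 0 := by decide
  simp [pZ, add_assoc, this]

theorem pZ_L (g : G) : pZ G * pL G g = pL G g * pZ G := by
  ext1 ⟨a, b, c⟩
  simp [pZ, pL]

theorem pZ_S [DecidableEq G] : pZ G * pS G = pS G * pZ G := by
  ext1 ⟨a, b, c⟩
  simp [pZ, pS]

theorem pZ_T : pZ G * pT G = pT G * pZ G := by
  ext1 ⟨a, b, c⟩
  simp [pZ, pT, add_right_comm]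

theorem cm_LS [DecidableEq G] (w : G) (y : X G) : cm (pL G w) (pS G) y =
    (y.1, y.2.1 - Pi.single y.1 1 + Pi.single (w⁻¹ * y.1) 1, y.2.2) := by
  obtain ⟨a, b, c⟩ := y
  have e1 : ∀ x : X G, (pS G)⁻¹ x = (x.1, x.2.1 - Pi.single x.1 1, x.2.2) := fun x => rfl
  have e2 : ∀ x : X G, (pL G w)⁻¹ x = (w⁻¹ * x.1, x.2) := fun x => rfl
  have e3 : ∀ x : X G, pS G x = (x.1, x.2.1 + Pi.single x.1 1, x.2.2) := fun x => rfl
  have e4 : ∀ x : X G, pL G w x = (w * x.1, x.2) := fun x => rfl
  simp only [cm, Equiv.Perm.mul_apply, e1, e2, e3, e4, mul_inv_cancel_left]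

theorem key [DecidableEq G] {w : G} (hw : w ≠ 1) : cm (cm (pL G w) (pS G)) (pT G) = pZ G := by
  have h1 : (1 : ZMod 2) + 1 = 0 := by decide
  rw [cm, mul_inv_eq_iff_eq_mul, mul_inv_eq_iff_eq_mul]
  ext1 ⟨a, b, c⟩
  have hne : a ≠ w⁻¹ * a := by
    intro h
    apply hw
    have := mul_eq_right.mp h.symm
    simpa using this
  have e1 : ∀ x : X G, pT G x = (x.1, x.2.1, x.2.2 + x.2.1 x.1) := fun x => rfl
  have e2 : ∀ x : X G, pZ G x = (x.1, x.2.1, x.2.2 + 1) := fun x => rfl
  have h3 : c + b a = c + (b a + 1) + 1 := by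
    linear_combination (-1 : ZMod 2) * h1
  simp only [Equiv.Perm.mul_apply, cm_LS, e1, e2, Pi.add_apply, Pi.sub_apply, Pi.single_eq_same,
    Pi.single_eq_of_ne hne, Prod.mk.injEq, true_and]
  have h4 : ∀ u v : ZMod 2, u + v = u + (v - 1 + 0) + 1 := by decide
  exact h4 _ _

end Perm

section Main
variable {m : ℕ} (R : Finset (FreeGroup (Fin m))) (w : List (Fin m × Bool))

/-- The relators as words. -/
noncomputable def wordsOf : List (List (ℕ × Bool)) := R.toList.map (fun r => nat r.toWord)

theorem rel_mem {p : Pres} {x : FreeGroup (Option ℕ)} (h : x ∈ rels p) :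
    (QuotientGroup.mk x : FrameGroup p) = 1 :=
  (QuotientGroup.eq_one_iff x).mpr (Subgroup.subset_normalClosure h)

theorem zz_eq_one (h : FreeGroup.mk w ∈ Subgroup.normalClosure (R : Set (FreeGroup (Fin m)))) :
    zz (pres m (wordsOf R) (nat w)) = 1 := by
  set p := pres m (wordsOf R) (nat w) with hp
  let π : FreeGroup (Option ℕ) →* FrameGroup p := QuotientGroup.mk' _
  let θ : FreeGroup (Fin m) →* FrameGroup p := π.comp (FreeGroup.map (fun i : Fin m => some i.val))
  have hR : (R : Set (FreeGroup (Fin m))) ⊆ θ.ker := by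
    intro r hr
    have hmem : FreeGroup.map some (FreeGroup.mk (nat r.toWord)) * 1 ∈ rels p := by
      right; right; right
      refine ⟨(nat r.toWord, false), ?_, by simp⟩
      rw [hp, pres]
      refine List.mem_append_left _ (List.mem_map.mpr ⟨nat r.toWord, ?_, rfl⟩)
      exact List.mem_map.mpr ⟨r, Finset.mem_toList.mpr hr, rfl⟩
    have h1 := rel_mem hmem
    rw [mul_one, map_nat, FreeGroup.mk_toWord] at h1
    exact h1
  have hw : θ (FreeGroup.mk w) = 1 := Subgroup.normalClosure_le_normal hR h
  have hmem : FreeGroup.map some (FreeGroup.mk (comm (comm (nat w) [(m, true)]) [(m + 1, true)])) *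
      FreeGroup.of none ∈ rels p := by
    right; right; right
    refine ⟨(comm (comm (nat w) [(m, true)]) [(m + 1, true)], true), ?_, by simp⟩
    rw [hp, pres]
    exact List.mem_append_right _ (List.mem_singleton.mpr rfl)
  have h1 : π (FreeGroup.map some (FreeGroup.mk (comm (comm (nat w) [(m, true)])
      [(m + 1, true)])) * FreeGroup.of none) = 1 := rel_mem hmem
  rw [mk_comm, mk_comm, map_mul, map_cm, map_cm, map_cm, map_cm, map_nat] at h1
  have hw' : π (FreeGroup.map (fun i : Fin m => some i.val) (FreeGroup.mk w)) = 1 := hw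
  rw [hw'] at h1
  have h2 : π (FreeGroup.of none) = 1 := by
    simpa [cm] using h1
  exact h2

theorem zz_ne_one (h : FreeGroup.mk w ∉ Subgroup.normalClosure (R : Set (FreeGroup (Fin m)))) :
    zz (pres m (wordsOf R) (nat w)) ≠ 1 := by
  classical
  set p := pres m (wordsOf R) (nat w) with hp
  let G := FreeGroup (Fin m) ⧸ Subgroup.normalClosure (R : Set (FreeGroup (Fin m)))
  let ρ : FreeGroup (Fin m) →* G := QuotientGroup.mk' _
  have hw : ρ (FreeGroup.mk w) ≠ 1 := by
    intro h1
    exact h ((QuotientGroup.eq_one_iff _).mp h1)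
  let f : Option ℕ → Equiv.Perm (X G)
    | none => pZ G
    | some i => if hi : i < m then pL G (ρ (FreeGroup.of ⟨i, hi⟩)) else
        if i = m then pS G else if i = m + 1 then pT G else 1
  have f1 : ∀ i : Fin m, f (some i.val) = pL G (ρ (FreeGroup.of i)) := by
    intro i
    simp [f, i.2]
  have fm : f (some m) = pS G := by simp [f]
  have fm1 : f (some (m + 1)) = pT G := by simp [f]
  have hf : ∀ v : FreeGroup (Fin m),
      FreeGroup.lift f (FreeGroup.map (fun i : Fin m => some i.val) v) = pL G (ρ v) := by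
    intro v
    have : (FreeGroup.lift f).comp (FreeGroup.map (fun i : Fin m => some i.val)) =
        (pL G).comp ρ := by
      apply FreeGroup.ext_hom
      intro i
      simp [f1]
    exact DFunLike.congr_fun this v
  have hrel : ∀ x ∈ rels p, FreeGroup.lift f x = 1 := by
    rintro x (rfl | ⟨i, rfl⟩ | ⟨i, hi, rfl⟩ | ⟨r, hr, rfl⟩)
    · rw [map_pow, FreeGroup.lift_apply_of, pow_two]
      exact pZ_sq G
    · simp only [map_mul, map_inv, FreeGroup.lift_apply_of]
      rw [mul_inv_eq_one, mul_inv_eq_iff_eq_mul]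
      change pZ G * f (some i) = f (some i) * pZ G
      simp only [f]
      split_ifs
      · exact pZ_L G _
      · exact pZ_S G
      · exact pZ_T G
      · simp
    · rw [FreeGroup.lift_apply_of]
      have hi' : m + 2 ≤ i := hi
      simp only [f]
      rw [dif_neg (by omega), if_neg (by omega), if_neg (by omega)]
    · rw [hp, pres] at hr
      rcases List.mem_append.mp hr with hr | hr
      · obtain ⟨r', hr', rfl⟩ := List.mem_map.mp hr
        obtain ⟨r'', hr'', rfl⟩ := List.mem_map.mp hr'
        simp only [Bool.false_eq_true, if_false, mul_one]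
        rw [map_nat, hf, FreeGroup.mk_toWord]
        have : ρ r'' = 1 := (QuotientGroup.eq_one_iff _).mpr
          (Subgroup.subset_normalClosure (Finset.mem_toList.mp hr''))
        rw [this, map_one]
      · rw [List.mem_singleton] at hr
        subst hr
        simp only [if_true]
        rw [mk_comm, mk_comm, map_mul, map_cm, map_cm, map_cm, map_cm, map_nat, hf]
        have a1 : FreeGroup.lift f (FreeGroup.map some (FreeGroup.mk [(m, true)])) = pS G := by
          change FreeGroup.lift f (FreeGroup.map some (FreeGroup.of m)) = _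
          rw [FreeGroup.map.of, FreeGroup.lift_apply_of, fm]
        have a2 : FreeGroup.lift f (FreeGroup.map some (FreeGroup.mk [(m + 1, true)])) = pT G := by
          change FreeGroup.lift f (FreeGroup.map some (FreeGroup.of (m + 1))) = _
          rw [FreeGroup.map.of, FreeGroup.lift_apply_of, fm1]
        rw [a1, a2, key G hw, FreeGroup.lift_apply_of]
        exact pZ_sq G
  let F : FrameGroup p →* Equiv.Perm (X G) := PresentedGroup.toGroup (f := f) hrel
  intro h1
  have h2 : F (zz p) = pZ G := PresentedGroup.toGroup.of (f := f) hrel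
  rw [h1, map_one] at h2
  exact pZ_ne G h2.symm

/-- The word problem and the vanishing of `z`. -/
theorem zz_iff : zz (pres m (wordsOf R) (nat w)) = 1 ↔
    FreeGroup.mk w ∈ Subgroup.normalClosure (R : Set (FreeGroup (Fin m))) :=
  ⟨fun h => by
    by_contra h1
    exact zz_ne_one R w h1 h, zz_eq_one R w⟩

end Main

end Pool.Agent.TH607.D4
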